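import Pool.Agent.Y382.CoverRect

/-!
# MP_6800d9_co: translative covering of the unit square by rectangles of total area three

Every finite or infinite family of axis-parallel rectangles `[0, w i] × [0, h i]` with positive
sides at most one, one side equal to one, and total area three covers the closed unit square by
translations.
-/

namespace Pool.Agent.Results.MP_6800d9_co.ShelfCovering

open Set

theorem result {ι : Type} (w h : ι → ℝ) (hw : ∀ i, 0 < w i ∧ w i ≤ 1)
    (hh : ∀ i, 0 < h i ∧ h i ≤ 1) (hone : ∃ i, w i = 1 ∨ h i = 1)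
    (harea : HasSum (fun i => w i * h i) 3) :
    ∃ v : ι → ℝ × ℝ, Icc ((0 : ℝ), (0 : ℝ)) (1, 1) ⊆
      ⋃ i, (fun z => z + v i) '' Icc ((0 : ℝ), (0 : ℝ)) (w i, h i) :=
  Pool.Agent.Y382.CoverRect.main w h hw hh hone harea

end Pool.Agent.Results.MP_6800d9_co.ShelfCovering
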